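import Pool.Agent.EXM.Main

/-!
# Primes for which the factorials miss few residues are rare

For a prime `p` let `V p` be the set of the nonzero residues `n! mod p`, so `p - 1 - |V p|` nonzero
residues are missed; for `p ≥ 5` the prime `p` is extremal if exactly one residue is missed.

Theorem. If `α, β ≥ 0` and `α + 2 β < 1`, then the sum of `exp ((log log p) ^ β) / p` over the primes
`p` which miss at most `(log log p) ^ α` residues converges.

* `α = 0`: the sum of the reciprocals of the extremal primes converges, even with the weights
  `exp ((log log p) ^ 0.49)`.
* `β = 0`: all primes outside a set with a convergent sum of reciprocals miss more than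
  `(log log p) ^ 0.99` residues.

Ideas of the proof. (1) An elementary upper bound of Chebotarev type which is uniform in the number
field: let `N / ℚ` be a Galois extension with group `G`, generated by integers with small conjugates.
If `Q` is an unramified prime ideal above `p` with the decomposition group `H`, then the integers of
`N` which are fixed by `H` have only `p` residues modulo `Q`. So Gallagher's larger sieve, applied to a
box of such integers, bounds the sum of `log p / p` over the `Q` with the decomposition group `H`, and
summing over the cyclic subgroups `H` generated by elements of `S ⊆ G` one gets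
`∑ log p / p ≤ (1 + log₂ |G|) (|S| / |G|) (2 log X + |G| (...))` for the primes `p ≤ X` with Frobenius
elements in `S`. (2) Let `P_l = (X + 1) ... (X + l) - 1`; a root of `P_l` modulo `p` gives `n! = m!`
modulo `p` with `n - m = l`. For primes `l = 3` modulo `14`, `P_l` is irreducible, has no root
modulo `2` and is divisible by `X ^ 3 + X + 1` modulo `2`, so its Galois group is not affine; by
Burnside's theorem on groups of prime degree, its transitive normal subgroups are doubly transitive,
and the Galois group of `b` such polynomials is transitive on the products of the sets of ordered
pairs of roots. So at most `|G| / 2 ^ b` elements have no fixed root at all. (3) Many disjoint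
blocks of `b` primes `l ≤ L`, `b L` about `(log log X) ^ (1 - ε)`.
-/

set_option autoImplicit false

namespace Pool.Agent.Results.MP_1790eb_nt.FewMissed

/-- The set `V_p` of the nonzero residues modulo `p` of the form `n! mod p`. -/
def V (p : ℕ) : Set (ZMod p) := {x | x ≠ 0 ∧ ∃ n : ℕ, (n.factorial : ZMod p) = x}

/-- For `α, β ≥ 0`, `α + 2 β < 1`, the sum of `exp ((log log p) ^ β) / p` over the primes `p` with
`p - 1 - |V_p| ≤ (log log p) ^ α` converges. -/
theorem result (α β : ℝ) (hα : 0 ≤ α) (hβ : 0 ≤ β) (h : α + 2 * β < 1) :
    Summable (Set.indicator
      {p : ℕ | p.Prime ∧ (p : ℝ) - 1 - ((V p).ncard : ℝ) ≤ (Real.log (Real.log (p : ℝ))) ^ α}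
      (fun p : ℕ => Real.exp ((Real.log (Real.log (p : ℝ))) ^ β) / (p : ℝ))) :=
  EXM.main α β hα hβ h

end Pool.Agent.Results.MP_1790eb_nt.FewMissed
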