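import Pool.Agent.NEC.Main

/-!
# The missing residue of an extremal prime, and thin families of non-extremal primes

For a prime `p` let `V p` be the set of the nonzero residues `n! mod p`; `p > 5` is extremal if
`|V_p| = p - 2`, that is, if exactly one nonzero residue `w` is missed.  Rokowska and Schinzel (1960):
then `p = 5 mod 8`, `(5/p) = -1`, `(-23/p) = 1` and `w = -((p-1)/2)!`.

Theorem.  Let `p > 5` be extremal.  Then `p = a² + 4 c²` with (unique) integers `a = c = 1 mod 4`, and

* the missing residue is `a / (2 c)` modulo `p`;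
* `((p-1)/4)!` is a quadratic residue modulo `p`, and its square is `-1/(4c)`;
* `c` is not `-3`, and `c` is not `(3 · 7 · 11 ⋯ (4j-5))²` with `j` odd (`j = 1` is `c = 1`).

So no prime `p > 5` of the form `a² + 4`, `a² + 36`, `a² + 4 · 21⁴`, ... is extremal.

Idea of the proof.  The values `n!` at odd `n` are closed under `x ↦ 1/x` and (Rokowska, Schinzel) under
`x ↦ -x`, which pairs the odd numbers `3 ≤ n < (p-1)/2`; so the number of those with `n!` a quadratic
non-residue is even.  The product of the quadratic characters of these factorials is identically the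
quadratic character of `q = ((p-1)/4)!`.  Gauss's congruence (by the Jacobi sum of a quartic
character) is `2 a q² = r`, `r = ((p-1)/2)!`, so the quadratic character of `q` is expressed by the
quartic character of `c`, which is `1` for `c = 1 mod 4` (quartic reciprocity, by Gauss sums in the
characteristics `ℓ | c`); this gives `2 c r = -a` and `4 c q² = -1`.  In the families the factorials
at `(p-1)/4 - j` and `(p-1)/2 - 2j + 1` (for `c = -3`: at `5(p-1)/12` and `11(p-1)/12 + 1`) are
equal up to sign, although one of these indices is odd and the other one even.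
-/

set_option autoImplicit false

namespace Pool.Agent.Results.MP_1790eb_nt.MissingResidue

/-- The set `V_p` of the nonzero residues modulo `p` of the form `n! mod p`. -/
def V (p : ℕ) : Set (ZMod p) := {x | x ≠ 0 ∧ ∃ n : ℕ, (n.factorial : ZMod p) = x}

/-- Let `p > 5` be a prime with `|V_p| = p - 2`.  Then there are unique integers `a = c = 1 mod 4` with
`p = a² + 4 c²`; the missed nonzero residue `w` satisfies `2 c w = a`; `q = ((p-1)/4)!` is a square modulo
`p` and `4 c q² = -1`; `c ≠ -3`, and `c` is not the square of `3 · 7 ⋯ (4j-5)` with `j` odd. -/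
theorem result (p : ℕ) (hp : p.Prime) (h5 : 5 < p) (h : (V p).ncard = p - 2) :
    ∃ a c : ℤ, a % 4 = 1 ∧ c % 4 = 1 ∧ (p : ℤ) = a ^ 2 + 4 * c ^ 2 ∧
      (∀ a' c' : ℤ, a' % 4 = 1 → c' % 4 = 1 → (p : ℤ) = a' ^ 2 + 4 * c' ^ 2 → a' = a ∧ c' = c) ∧
      (c : ZMod p) ≠ 0 ∧
      (∀ w : ZMod p, w ≠ 0 → w ∉ V p → 2 * (c : ZMod p) * w = (a : ZMod p)) ∧
      IsSquare ((((p - 1) / 4).factorial : ℕ) : ZMod p) ∧
      4 * (c : ZMod p) * ((((p - 1) / 4).factorial : ℕ) : ZMod p) ^ 2 = -1 ∧
      c ≠ -3 ∧
      ∀ j : ℕ, Odd j → c ≠ ((∏ i ∈ Finset.range (j - 1), (4 * i + 3) : ℕ) : ℤ) ^ 2 :=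
  NEC.main p hp h5 h

end Pool.Agent.Results.MP_1790eb_nt.MissingResidue
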